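import Pool.Agent.MNE.StmtsD

/-! Squad MNE, row WEI: the monomial of largest weight dominates. -/

set_option autoImplicit false

namespace Pool.Agent.MNE.H20

open Finset Filter Topology

/-- equal weights of monomials of degree less than `Q` in `T` -/
theorem wt_inj {P Q : ℕ} (co : Nat.Coprime P Q) (hQ : 0 < Q) {e e0 : ℤ × ℕ} (he : e.2 < Q)
    (he0 : e0.2 < Q) (h : (Q : ℤ) * e.1 + P * e.2 = (Q : ℤ) * e0.1 + P * e0.2) : e = e0 := by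
  have h1 : (Q : ℤ) ∣ (P : ℤ) * ((e.2 : ℤ) - e0.2) := ⟨e0.1 - e.1, by linarith⟩
  have hc : IsCoprime (Q : ℤ) (P : ℤ) := (Nat.isCoprime_iff_coprime.2 co).symm
  have h2 : (Q : ℤ) ∣ (e.2 : ℤ) - e0.2 := hc.dvd_of_dvd_mul_left h1
  have h3 : (e.2 : ℤ) - e0.2 = 0 := by
    refine Int.eq_zero_of_abs_lt_dvd h2 ?_
    rw [abs_lt]
    constructor <;> omega
  have h4 : e.2 = e0.2 := by omega
  have h5 : e.1 = e0.1 := by
    rw [h4] at h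
    have h6 : (Q : ℤ) * e.1 = Q * e0.1 := by linarith
    exact mul_left_cancel₀ (by exact_mod_cast hQ.ne') h6
  exact Prod.ext h5 h4

theorem tendT {h M n P Q : ℕ} {σ c κ : ℚ} {l : Filter (ℕ × ℕ)} (hB : Br h M n P Q σ c κ)
    (hL : Lim h M n P Q σ c κ l) (hQ : 0 < Q) :
    Tendsto (fun p : ℕ × ℕ => (p.2 : ℝ) / (p.1 : ℝ) ^ ((P : ℝ) / Q)) l
      (𝓝 (((κ : ℝ)⁻¹) ^ ((Q : ℝ)⁻¹))) := by
  have hκ : (0 : ℝ) < κ := by exact_mod_cast hB.hκ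
  have h1 : Tendsto (fun p : ℕ × ℕ => (p.2 : ℝ) ^ Q / (p.1 : ℝ) ^ P) l (𝓝 ((κ : ℝ)⁻¹)) := by
    have h2 := hL.T.const_mul ((κ : ℝ)⁻¹)
    rw [mul_one] at h2
    refine h2.congr fun p => ?_
    field_simp
  have h3 := (Real.continuousAt_rpow_const ((κ : ℝ)⁻¹) ((Q : ℝ)⁻¹)
    (Or.inl (inv_pos.2 hκ).ne')).tendsto.comp h1
  refine h3.congr fun p => ?_
  have hU : (0 : ℝ) ≤ p.1 := Nat.cast_nonneg _
  have hV : (0 : ℝ) ≤ p.2 := Nat.cast_nonneg _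
  change ((p.2 : ℝ) ^ Q / (p.1 : ℝ) ^ P) ^ ((Q : ℝ)⁻¹) = _
  rw [Real.div_rpow (pow_nonneg hV _) (pow_nonneg hU _), Real.pow_rpow_inv_natCast hV hQ.ne',
    ← Real.rpow_natCast, ← Real.rpow_mul hU, div_eq_mul_inv (P : ℝ)]

theorem wei : WeiStmt := by
  intro h M n P Q σ c κ l hB hL s a hs e0 he0 hmax
  have hQ : 0 < Q := lt_trans hB.hP hB.hPQ
  have hQ' : (0 : ℝ) < Q := by exact_mod_cast hQ
  have hκ : (0 : ℝ) < κ := by exact_mod_cast hB.hκ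
  obtain ⟨τ, hτ⟩ : ∃ τ : ℝ, τ = ((κ : ℝ)⁻¹) ^ ((Q : ℝ)⁻¹) := ⟨_, rfl⟩
  have hτ0 : 0 < τ := by
    rw [hτ]
    exact Real.rpow_pos_of_pos (inv_pos.2 hκ) _
  have hT := tendT hB hL hQ
  rw [← hτ] at hT
  obtain ⟨w, hw⟩ : ∃ w : ℤ × ℕ → ℤ, ∀ e, w e = (Q : ℤ) * e.1 + P * e.2 :=
    ⟨fun e => (Q : ℤ) * e.1 + P * e.2, fun _ => rfl⟩
  have hU0 : ∀ᶠ p : ℕ × ℕ in l, (0 : ℝ) < p.1 := hL.U.eventually_gt_atTop 0
  -- the quotient of a monomial by the power of `U`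
  have hmon : ∀ e : ℤ × ℕ, ∀ᶠ p : ℕ × ℕ in l,
      (p.1 : ℝ) ^ e.1 * (p.2 : ℝ) ^ e.2 / (p.1 : ℝ) ^ ((w e0 : ℝ) / Q) =
        ((p.2 : ℝ) / (p.1 : ℝ) ^ ((P : ℝ) / Q)) ^ e.2 *
          (p.1 : ℝ) ^ (-(((w e0 : ℝ) - w e) / Q)) := by
    intro e
    filter_upwards [hU0] with p hp
    have h1 : (p.1 : ℝ) ^ e.1 = (p.1 : ℝ) ^ ((e.1 : ℤ) : ℝ) := (Real.rpow_intCast _ _).symm
    have h2 : ((p.1 : ℝ) ^ ((P : ℝ) / Q)) ^ e.2 = (p.1 : ℝ) ^ ((P : ℝ) / Q * e.2) := by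
      rw [Real.rpow_mul hp.le, Real.rpow_natCast]
    have h3 : (p.1 : ℝ) ^ (-(((w e0 : ℝ) - w e) / Q)) =
        (p.1 : ℝ) ^ ((e.1 : ℤ) : ℝ) * (p.1 : ℝ) ^ ((P : ℝ) / Q * e.2) /
          (p.1 : ℝ) ^ ((w e0 : ℝ) / Q) := by
      rw [← Real.rpow_add hp, ← Real.rpow_sub hp]
      congr 1
      rw [hw e]
      push_cast
      field_simp
      ring
    have h4 : (0 : ℝ) < (p.1 : ℝ) ^ ((P : ℝ) / Q * e.2) := Real.rpow_pos_of_pos hp _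
    rw [h3, div_pow, h2, h1]
    field_simp
  -- the limits
  have hlim : ∀ e ∈ s, Tendsto (fun p : ℕ × ℕ => a e * ((p.1 : ℝ) ^ e.1 * (p.2 : ℝ) ^ e.2) /
      (p.1 : ℝ) ^ ((w e0 : ℝ) / Q)) l (𝓝 (if e = e0 then a e0 * τ ^ e0.2 else 0)) := by
    intro e he
    split_ifs with hee
    · subst hee
      refine ((hT.pow e.2).const_mul (a e)).congr' ?_
      filter_upwards [hmon e] with p hp
      rw [mul_div_assoc, hp, sub_self, zero_div, neg_zero, Real.rpow_zero, mul_one]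
    · have hlt : w e < w e0 := by
        refine lt_of_le_of_ne (by rw [hw, hw]; exact hmax e he) fun hcon => hee ?_
        rw [hw, hw] at hcon
        exact wt_inj hB.co hQ (hs e he).1 (hs e0 he0).1 hcon
      have hpos : (0 : ℝ) < ((w e0 : ℝ) - w e) / Q := by
        apply div_pos _ hQ'
        rw [sub_pos]
        exact_mod_cast hlt
      have h5 := (tendsto_rpow_neg_atTop hpos).comp hL.U
      have h6 := ((hT.pow e.2).mul h5).const_mul (a e)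
      rw [mul_zero, mul_zero] at h6
      refine h6.congr' ?_
      filter_upwards [hmon e] with p hp
      rw [mul_div_assoc, hp]
      rfl
  have hsum : Tendsto (fun p : ℕ × ℕ => (∑ e ∈ s, a e * ((p.1 : ℝ) ^ e.1 * (p.2 : ℝ) ^ e.2)) /
      (p.1 : ℝ) ^ ((w e0 : ℝ) / Q)) l (𝓝 (a e0 * τ ^ e0.2)) := by
    have h7 := tendsto_finsetSum s hlim
    rw [Finset.sum_ite_eq' s e0, if_pos he0] at h7
    refine h7.congr fun p => ?_
    rw [Finset.sum_div]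
  have ha0 : 0 < |a e0 * τ ^ e0.2| := by
    rw [abs_pos]
    exact mul_ne_zero (hs e0 he0).2 (pow_pos hτ0 _).ne'
  refine ⟨|a e0 * τ ^ e0.2| / 2, half_pos ha0, ?_⟩
  have h8 := hsum.abs.eventually (lt_mem_nhds (half_lt_self ha0))
  filter_upwards [h8, hU0] with p hp hp0
  have h9 : (0 : ℝ) < (p.1 : ℝ) ^ ((w e0 : ℝ) / Q) := Real.rpow_pos_of_pos hp0 _
  rw [abs_div, abs_of_pos h9, lt_div_iff₀ h9] at hp
  rw [← hw e0]
  exact hp.le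

end Pool.Agent.MNE.H20
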